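import Mathlib

set_option autoImplicit false

/-!
Ideals of finite colength whose radical is not prime are intersections of coprime proper ideals.
-/

universe u

namespace Pool.Agent.TH169.EC

lemma exists_coprime_artinian (A : Type u) [CommRing A] [IsArtinianRing A]
    (h : ¬ (nilradical A).IsPrime) [Nontrivial A] :
    ∃ I J : Ideal A, IsCoprime I J ∧ I ⊓ J = ⊥ ∧ I ≠ ⊤ ∧ J ≠ ⊤ := by
  classical
  obtain ⟨M, hM⟩ := Ideal.exists_maximal A
  have : Fintype (MaximalSpectrum A) := Fintype.ofFinite _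
  let S : Finset (MaximalSpectrum A) := Finset.univ.filter fun N => N.asIdeal ≠ M
  let J : Ideal A := ⨅ N ∈ S, N.asIdeal
  have hco : M ⊔ J = ⊤ := by
    apply Ideal.sup_iInf_eq_top
    intro N hN
    have h1 : N.asIdeal ≠ M := (Finset.mem_filter.1 hN).2
    exact hM.coprime_of_ne N.isMaximal h1.symm
  have hnil : M ⊓ J ≤ nilradical A := by
    intro x hx
    rw [nilradical_eq_sInf, Submodule.mem_sInf]
    intro (P : Ideal A) hP
    have hP' : P.IsPrime := hP
    have hPm : P.IsMaximal := IsArtinianRing.isMaximal_of_isPrime P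
    by_cases hPM : P = M
    · rw [hPM]; exact hx.1
    · have h1 : J ≤ P := by
        apply iInf₂_le_of_le (⟨P, hPm⟩ : MaximalSpectrum A) (by simp [S, hPM]) le_rfl
      exact h1 hx.2
  -- there is another maximal ideal
  have hex : ∃ N : MaximalSpectrum A, N.asIdeal ≠ M := by
    by_contra hcon
    push Not at hcon
    apply h
    have h1 : nilradical A = M := by
      apply le_antisymm
      · exact nilradical_le_prime M
      · intro x hx
        rw [nilradical_eq_sInf, Submodule.mem_sInf]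
        intro (P : Ideal A) hP
        have hP' : P.IsPrime := hP
        have hPm : P.IsMaximal := IsArtinianRing.isMaximal_of_isPrime P
        have := hcon ⟨P, hPm⟩
        change P = M at this
        rw [this]
        exact hx
    rw [h1]
    exact hM.isPrime
  obtain ⟨N, hN⟩ := hex
  have hJN : J ≤ N.asIdeal := iInf₂_le_of_le N (by simp [S, hN]) le_rfl
  obtain ⟨n, hn⟩ := IsArtinianRing.isNilpotent_nilradical (R := A)
  rcases Nat.eq_zero_or_pos n with rfl | hn0
  · exfalso
    rw [pow_zero] at hn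
    have : (1 : A) ∈ (⊥ : Ideal A) := by
      have h1 : (1 : Ideal A) = ⊥ := hn
      rw [← h1, Ideal.one_eq_top]
      trivial
    exact one_ne_zero ((Submodule.mem_bot A).1 this)
  have hcop : IsCoprime (M ^ n) (J ^ n) := (Ideal.isCoprime_iff_sup_eq.2 hco).pow
  refine ⟨M ^ n, J ^ n, hcop, ?_, ?_, ?_⟩
  · rw [← Ideal.mul_eq_inf_of_isCoprime hcop, ← mul_pow]
    apply le_antisymm _ bot_le
    have h1 : (M * J) ^ n ≤ (nilradical A) ^ n := Ideal.pow_right_mono (Ideal.mul_le_inf.trans hnil) n
    rw [hn] at h1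
    exact h1
  · intro htop
    have : M ^ n ≤ M := Ideal.pow_le_self (by omega)
    rw [htop] at this
    exact hM.ne_top (top_le_iff.1 this)
  · intro htop
    have : J ^ n ≤ N.asIdeal := (Ideal.pow_le_self (by omega)).trans hJN
    rw [htop] at this
    exact N.isMaximal.ne_top (top_le_iff.1 this)

lemma exists_coprime {k : Type u} [Field k] {B : Type u} [CommRing B] [Algebra k B] (I : Ideal B)
    [Module.Finite k (B ⧸ I)] (hI : I ≠ ⊤) (h : ¬ I.radical.IsPrime) :
    ∃ I1 I2 : Ideal B, IsCoprime I1 I2 ∧ I = I1 ⊓ I2 ∧ I1 ≠ ⊤ ∧ I2 ≠ ⊤ := by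
  have hart : IsArtinianRing (B ⧸ I) := IsArtinianRing.of_finite k (B ⧸ I)
  have hnt : Nontrivial (B ⧸ I) := Ideal.Quotient.nontrivial_iff.2 hI
  have h1 : ¬ (nilradical (B ⧸ I)).IsPrime := by
    intro h2
    apply h
    have h3 : I.radical = (nilradical (B ⧸ I)).comap (Ideal.Quotient.mk I) := by
      rw [nilradical, Ideal.comap_radical]
      congr 1
      ext x
      rw [Ideal.mem_comap, Ideal.zero_eq_bot, Ideal.mem_bot, Ideal.Quotient.eq_zero_iff_mem]
    rw [h3]
    exact Ideal.IsPrime.comap _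
  obtain ⟨J1, J2, hco, hinf, ht1, ht2⟩ := exists_coprime_artinian (B ⧸ I) h1
  have hs : Function.Surjective (Ideal.Quotient.mk I) := Ideal.Quotient.mk_surjective
  refine ⟨J1.comap (Ideal.Quotient.mk I), J2.comap (Ideal.Quotient.mk I), ?_, ?_, ?_, ?_⟩
  · rw [Ideal.isCoprime_iff_exists] at hco ⊢
    obtain ⟨i, hi, j, hj, hij⟩ := hco
    obtain ⟨x, rfl⟩ := hs i
    refine ⟨x, hi, 1 - x, ?_, by ring⟩
    rw [Ideal.mem_comap, map_sub, map_one, ← hij, add_sub_cancel_left]
    exact hj
  · rw [← Ideal.comap_inf, hinf]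
    ext x
    rw [Ideal.mem_comap, Ideal.mem_bot, Ideal.Quotient.eq_zero_iff_mem]
  · intro htop
    apply ht1
    rw [Ideal.eq_top_iff_one] at htop ⊢
    simpa using htop
  · intro htop
    apply ht2
    rw [Ideal.eq_top_iff_one] at htop ⊢
    simpa using htop

end Pool.Agent.TH169.EC
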