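import Mathlib

set_option autoImplicit false

/-!
Bounds for the dimension of `Hom(I, B/I)` for ideals of finite colength.
-/

universe u

namespace Pool.Agent.TH169.EC

open Module

section general

variable {k : Type u} [Field k] {B : Type u} [CommRing B] [Algebra k B]

/-- Ideals of finite colength all of whose pieces have length at most `R`: the ideals of colength
at most `R` and intersections of coprime ideals of this kind. -/
inductive Small (k : Type u) [Field k] {B : Type u} [CommRing B] [Algebra k B] (R : ℕ) :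
    Ideal B → Prop
  | base (I : Ideal B) (hf : Module.Finite k (B ⧸ I)) (hr : finrank k (B ⧸ I) ≤ R) : Small k R I
  | inter (I J : Ideal B) (hI : Small k R I) (hJ : Small k R J) (h : IsCoprime I J) :
      Small k R (I ⊓ J)

/-- `Hom(I, B/I)` has dimension at most the number of generators times the colength -/
lemma finrank_hom_le (I : Ideal B) [Module.Finite k (B ⧸ I)] {ι : Type} [Fintype ι] (g : ι → B)
    (hg : I = Ideal.span (Set.range g)) :
    Module.Finite k (I →ₗ[B] (B ⧸ I)) ∧
      finrank k (I →ₗ[B] (B ⧸ I)) ≤ Fintype.card ι * finrank k (B ⧸ I) := by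
  have hgI : ∀ i, g i ∈ I := fun i => by
    rw [hg]; exact Ideal.subset_span ⟨i, rfl⟩
  let Φ : (I →ₗ[B] (B ⧸ I)) →ₗ[k] (ι → B ⧸ I) :=
    { toFun := fun φ i => φ ⟨g i, hgI i⟩
      map_add' := fun φ ψ => rfl
      map_smul' := fun c φ => rfl }
  have hinj : Function.Injective Φ := by
    intro φ ψ h
    ext ⟨x, hx⟩
    have hx' : x ∈ Ideal.span (Set.range g) := hg ▸ hx
    obtain ⟨a, ha⟩ := (Ideal.mem_span_range_iff_exists_fun).1 hx'
    have h2 : (⟨x, hx⟩ : I) = ∑ i, a i • (⟨g i, hgI i⟩ : I) := by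
      apply Subtype.ext
      change x = _
      rw [← ha]
      simp
    rw [h2, map_sum, map_sum]
    refine Finset.sum_congr rfl fun i _ => ?_
    rw [map_smul, map_smul]
    congr 1
    exact congrFun h i
  have hfin : Module.Finite k (ι → B ⧸ I) := inferInstance
  refine ⟨Module.Finite.of_injective Φ hinj, ?_⟩
  refine (LinearMap.finrank_le_finrank_of_injective hinj).trans ?_
  rw [Module.finrank_pi_fintype]
  simp

lemma inf_colength (I J : Ideal B) (h : IsCoprime I J) [Module.Finite k (B ⧸ I)]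
    [Module.Finite k (B ⧸ J)] : Module.Finite k (B ⧸ (I ⊓ J)) ∧
      finrank k (B ⧸ (I ⊓ J)) = finrank k (B ⧸ I) + finrank k (B ⧸ J) := by
  let e : (B ⧸ (I ⊓ J)) ≃ₐ[k] (B ⧸ I) × (B ⧸ J) :=
    AlgEquiv.ofRingEquiv (f := Ideal.quotientInfEquivQuotientProd I J h) (by
      intro r
      rfl)
  refine ⟨Module.Finite.equiv e.symm.toLinearEquiv, ?_⟩
  rw [e.toLinearEquiv.finrank_eq, Module.finrank_prod]

/-- `Hom(I ∩ J, B/(I ∩ J))` for coprime `I` and `J` -/
lemma finrank_hom_inf_le (I J : Ideal B) (h : IsCoprime I J)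
    (hI : Module.Finite k (I →ₗ[B] (B ⧸ I))) (hJ : Module.Finite k (J →ₗ[B] (B ⧸ J))) :
    Module.Finite k ((I ⊓ J : Ideal B) →ₗ[B] (B ⧸ (I ⊓ J))) ∧
      finrank k ((I ⊓ J : Ideal B) →ₗ[B] (B ⧸ (I ⊓ J))) ≤
        finrank k (I →ₗ[B] (B ⧸ I)) + finrank k (J →ₗ[B] (B ⧸ J)) := by
  obtain ⟨i, hi, j, hj, hij⟩ := Ideal.isCoprime_iff_exists.1 h
  -- `j` is one modulo `I` and `i` is one modulo `J`
  let pI : (B ⧸ (I ⊓ J)) →ₗ[B] (B ⧸ I) := Submodule.factor inf_le_left
  let pJ : (B ⧸ (I ⊓ J)) →ₗ[B] (B ⧸ J) := Submodule.factor inf_le_right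
  let mI : I →ₗ[B] (I ⊓ J : Ideal B) :=
    { toFun := fun x => ⟨j * x.1, Ideal.mul_mem_left _ _ x.2, Ideal.mul_mem_right _ _ hj⟩
      map_add' := fun x y => by ext; simp [mul_add]
      map_smul' := fun c x => by ext; simp [mul_left_comm] }
  let mJ : J →ₗ[B] (I ⊓ J : Ideal B) :=
    { toFun := fun x => ⟨i * x.1, Ideal.mul_mem_right _ _ hi, Ideal.mul_mem_left _ _ x.2⟩
      map_add' := fun x y => by ext; simp [mul_add]
      map_smul' := fun c x => by ext; simp [mul_left_comm] }
  let Φ : ((I ⊓ J : Ideal B) →ₗ[B] (B ⧸ (I ⊓ J))) →ₗ[k]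
      (I →ₗ[B] (B ⧸ I)) × (J →ₗ[B] (B ⧸ J)) :=
    { toFun := fun φ => (pI ∘ₗ φ ∘ₗ mI, pJ ∘ₗ φ ∘ₗ mJ)
      map_add' := fun φ ψ => by
        ext x <;> simp
      map_smul' := fun c φ => by
        have h1 : ∀ (x : B ⧸ (I ⊓ J)), pI (c • x) = c • pI x := fun x => by
          rw [← algebraMap_smul B c x, map_smul, algebraMap_smul]
        have h2 : ∀ (x : B ⧸ (I ⊓ J)), pJ (c • x) = c • pJ x := fun x => by
          rw [← algebraMap_smul B c x, map_smul, algebraMap_smul]
        ext x <;> simp [h1, h2] }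
  have hinj : Function.Injective Φ := by
    rw [injective_iff_map_eq_zero]
    intro φ hφ
    have h1 : ∀ x : I, pI (φ (mI x)) = 0 := fun x =>
      LinearMap.congr_fun (congrArg Prod.fst hφ) x
    have h2 : ∀ x : J, pJ (φ (mJ x)) = 0 := fun x =>
      LinearMap.congr_fun (congrArg Prod.snd hφ) x
    ext x
    rw [LinearMap.zero_apply]
    -- the components of `φ x`
    have e1 : pI (φ x) = 0 := by
      have h3 := h1 ⟨x.1, x.2.1⟩
      have h4 : mI ⟨x.1, x.2.1⟩ = j • x := by
        ext; simp [mI]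
      rw [h4, map_smul, map_smul] at h3
      have h5 : (j : B) • pI (φ x) = pI (φ x) := by
        have h6 : pI (φ x) = (i + j) • pI (φ x) := by rw [hij, one_smul]
        have h7 : i • pI (φ x) = 0 := by
          obtain ⟨y, hy⟩ := Ideal.Quotient.mk_surjective (pI (φ x))
          rw [← hy, Algebra.smul_def]
          change Ideal.Quotient.mk I i * _ = 0
          rw [Ideal.Quotient.eq_zero_iff_mem.2 hi, zero_mul]
        rw [add_smul, h7, zero_add] at h6
        exact h6.symm
      rw [h5] at h3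
      exact h3
    have e2 : pJ (φ x) = 0 := by
      have h3 := h2 ⟨x.1, x.2.2⟩
      have h4 : mJ ⟨x.1, x.2.2⟩ = i • x := by
        ext; simp [mJ]
      rw [h4, map_smul, map_smul] at h3
      have h5 : (i : B) • pJ (φ x) = pJ (φ x) := by
        have h6 : pJ (φ x) = (i + j) • pJ (φ x) := by rw [hij, one_smul]
        have h7 : j • pJ (φ x) = 0 := by
          obtain ⟨y, hy⟩ := Ideal.Quotient.mk_surjective (pJ (φ x))
          rw [← hy, Algebra.smul_def]
          change Ideal.Quotient.mk J j * _ = 0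
          rw [Ideal.Quotient.eq_zero_iff_mem.2 hj, zero_mul]
        rw [add_smul, h7, add_zero] at h6
        exact h6.symm
      rw [h5] at h3
      exact h3
    obtain ⟨y, hy⟩ := Ideal.Quotient.mk_surjective (φ x)
    rw [← hy] at e1 e2 ⊢
    have e1' : Ideal.Quotient.mk I y = 0 := e1
    have e2' : Ideal.Quotient.mk J y = 0 := e2
    rw [Ideal.Quotient.eq_zero_iff_mem] at e1' e2' ⊢
    exact ⟨e1', e2'⟩
  refine ⟨Module.Finite.of_injective Φ hinj, ?_⟩
  refine (LinearMap.finrank_le_finrank_of_injective hinj).trans ?_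
  rw [Module.finrank_prod]

end general

section poly

variable {k : Type u} [Field k] {n : ℕ}

open MvPolynomial

lemma mk_C_mul (I : Ideal (MvPolynomial (Fin n) k)) (c : k) (y : MvPolynomial (Fin n) k) :
    Ideal.Quotient.mk I (C c * y) = c • Ideal.Quotient.mk I y := by
  rw [← smul_eq_C_mul]
  rfl

/-- an ideal of finite colength `r` in `n` variables is generated by `n r + 1` elements -/
lemma exists_gens (I : Ideal (MvPolynomial (Fin n) k))
    [Module.Finite k (MvPolynomial (Fin n) k ⧸ I)] :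
    ∃ (ι : Type) (_ : Fintype ι) (g : ι → MvPolynomial (Fin n) k),
      I = Ideal.span (Set.range g) ∧
        Fintype.card ι = n * finrank k (MvPolynomial (Fin n) k ⧸ I) + 1 := by
  classical
  set r := finrank k (MvPolynomial (Fin n) k ⧸ I) with hr
  let bas : Basis (Fin r) k (MvPolynomial (Fin n) k ⧸ I) := Module.finBasis k _
  choose β hβ using fun i => Ideal.Quotient.mk_surjective (bas i)
  let L : MvPolynomial (Fin n) k → MvPolynomial (Fin n) k := fun x =>
    ∑ l, C (bas.repr (Ideal.Quotient.mk I x) l) * β l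
  have hL : ∀ x, x - L x ∈ I := by
    intro x
    rw [← Ideal.Quotient.eq_zero_iff_mem, map_sub, sub_eq_zero, map_sum]
    conv_lhs => rw [← bas.sum_repr (Ideal.Quotient.mk I x)]
    refine Finset.sum_congr rfl fun l _ => ?_
    rw [mk_C_mul, hβ]
  refine ⟨(Fin n × Fin r) ⊕ Unit, inferInstance,
    Sum.elim (fun p => X p.1 * β p.2 - L (X p.1 * β p.2)) (fun _ => 1 - L 1), ?_, by simp⟩
  set g : (Fin n × Fin r) ⊕ Unit → MvPolynomial (Fin n) k :=
    Sum.elim (fun p => X p.1 * β p.2 - L (X p.1 * β p.2)) (fun _ => 1 - L 1) with hg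
  apply le_antisymm
  swap
  · rw [Ideal.span_le]
    rintro _ ⟨p | _, rfl⟩
    · exact hL _
    · exact hL _
  · -- every polynomial is congruent to a combination of the `β`
    have key : ∀ x : MvPolynomial (Fin n) k, ∃ a : Fin r → k,
        x - ∑ l, C (a l) * β l ∈ Ideal.span (Set.range g) := by
      intro x
      induction x using MvPolynomial.induction_on with
      | C c =>
        refine ⟨fun l => c * bas.repr (Ideal.Quotient.mk I 1) l, ?_⟩
        have h1 : C c - ∑ l, C (c * bas.repr (Ideal.Quotient.mk I 1) l) * β l =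
            C c * (1 - L 1) := by
          simp only [L, mul_sub, mul_one, Finset.mul_sum, map_mul, mul_assoc]
        rw [h1]
        exact Ideal.mul_mem_left _ _ (Ideal.subset_span ⟨Sum.inr (), rfl⟩)
      | add x y hx hy =>
        obtain ⟨a, ha⟩ := hx
        obtain ⟨b, hb⟩ := hy
        refine ⟨a + b, ?_⟩
        have := Ideal.add_mem _ ha hb
        convert this using 1
        simp only [Pi.add_apply, map_add, add_mul, Finset.sum_add_distrib]
        ring
      | mul_X x i hx =>
        obtain ⟨a, ha⟩ := hx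
        refine ⟨fun l => ∑ l', a l' * bas.repr (Ideal.Quotient.mk I (X i * β l')) l, ?_⟩
        have h1 : x * X i - ∑ l, C (∑ l', a l' *
            bas.repr (Ideal.Quotient.mk I (X i * β l')) l) * β l =
            X i * (x - ∑ l, C (a l) * β l) +
              ∑ l', C (a l') * (X i * β l' - L (X i * β l')) := by
          have h2 : ∑ l, C (∑ l', a l' *
            bas.repr (Ideal.Quotient.mk I (X i * β l')) l) * β l =
              ∑ l', C (a l') * L (X i * β l') := by
            simp only [L, map_sum, map_mul, Finset.sum_mul, Finset.mul_sum]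
            rw [Finset.sum_comm]
            refine Finset.sum_congr rfl fun l _ => Finset.sum_congr rfl fun l' _ => ?_
            ring
          rw [h2]
          simp only [mul_sub, Finset.sum_sub_distrib, Finset.mul_sum]
          have h3 : ∑ l, X i * (C (a l) * β l) = ∑ l', C (a l') * (X i * β l') :=
            Finset.sum_congr rfl fun l _ => by ring
          rw [h3]
          ring
        rw [h1]
        refine Ideal.add_mem _ (Ideal.mul_mem_left _ _ ha) ?_
        exact Ideal.sum_mem _ fun l _ => Ideal.mul_mem_left _ _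
          (Ideal.subset_span ⟨Sum.inl (i, l), rfl⟩)
    intro x hx
    obtain ⟨a, ha⟩ := key x
    have h1 : Ideal.span (Set.range g) ≤ I := by
      rw [Ideal.span_le]
      rintro _ ⟨p | _, rfl⟩
      · exact hL _
      · exact hL _
    have h2 : ∑ l, C (a l) * β l ∈ I := by
      have := Ideal.sub_mem _ hx (h1 ha)
      simpa using this
    have h3 : ∑ l, a l • bas l = 0 := by
      rw [← Ideal.Quotient.eq_zero_iff_mem, map_sum] at h2
      rw [← h2]
      refine Finset.sum_congr rfl fun l _ => ?_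
      rw [mk_C_mul, hβ]
    have h4 := Fintype.linearIndependent_iff.1 bas.linearIndependent a h3
    have h5 : ∑ l, C (a l) * β l = 0 := Finset.sum_eq_zero fun l _ => by rw [h4, C_0, zero_mul]
    rw [h5, sub_zero] at ha
    exact ha

/-- the tangent space bound -/
theorem Small.finrank_hom {R : ℕ} {I : Ideal (MvPolynomial (Fin n) k)} (h : Small k R I) :
    Module.Finite k (MvPolynomial (Fin n) k ⧸ I) ∧
    Module.Finite k (I →ₗ[MvPolynomial (Fin n) k] (MvPolynomial (Fin n) k ⧸ I)) ∧
      finrank k (I →ₗ[MvPolynomial (Fin n) k] (MvPolynomial (Fin n) k ⧸ I)) ≤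
        (n * R + 1) * finrank k (MvPolynomial (Fin n) k ⧸ I) := by
  induction h with
  | base I hf hr =>
    obtain ⟨ι, _, g, hg, hc⟩ := exists_gens I
    obtain ⟨h1, h2⟩ := finrank_hom_le (k := k) I g hg
    refine ⟨hf, h1, h2.trans ?_⟩
    rw [hc]
    exact Nat.mul_le_mul_right _ (by
      have := Nat.mul_le_mul_left n hr
      omega)
  | inter I J hI hJ h ihI ihJ =>
    obtain ⟨f1, f2, f3⟩ := ihI
    obtain ⟨g1, g2, g3⟩ := ihJ
    obtain ⟨a1, a2⟩ := inf_colength (k := k) I J h
    obtain ⟨b1, b2⟩ := finrank_hom_inf_le (k := k) I J h f2 g2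
    refine ⟨a1, b1, b2.trans ?_⟩
    rw [a2, mul_add]
    exact add_le_add f3 g3

end poly

end Pool.Agent.TH169.EC
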