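import Mathlib
import Pool.Agent.Helper226.Smoothable
import Pool.Agent.TH169.EC.HomBound

set_option autoImplicit false

/-!
The local dimension of the Hilbert scheme at `[I]` is at most `dim Hom(I, B/I)`.
-/

open scoped TensorProduct
open CategoryTheory AlgebraicGeometry

universe u

namespace Pool.Agent.TH169.EC

open Module Pool.Agent.Helper226

section

variable {k : Type u} [Field k] {B : Type u} [CommRing B] [Algebra k B] {d : ℕ}

/-- the maximal ideal of the chart ring is generated by the coordinates of the elements of `I` -/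
lemma ker_clf_le {b : Fin d → B} (c : Chart k b k) :
    RingHom.ker (clf c) ≤
      Ideal.span {a | ∃ x ∈ c.ker, ∃ j : Fin d, a = (uc k b).q x j} := by
  set z := clf c with hz
  set N : Ideal (AR k b) := Ideal.span {a | ∃ x ∈ c.ker, ∃ j : Fin d, a = (uc k b).q x j} with hN
  let φ : AR k b →ₐ[k] (AR k b ⧸ N) := Ideal.Quotient.mkₐ k N
  let ψ : AR k b →ₐ[k] (AR k b ⧸ N) := (Algebra.ofId k (AR k b ⧸ N)).comp z
  have hzq : ∀ x j, z ((uc k b).q x j) = c.q x j := by
    intro x j
    rw [← Chart.map_q, uc_map_clf]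
  have hφψ : φ = ψ := by
    apply hom_ext_uc
    ext x j
    rw [Chart.map_q, Chart.map_q]
    have h1 : x - ∑ i, c.q x i • b i ∈ c.ker := by
      rw [Chart.mem_ker, map_sub, map_sum]
      simp only [map_smul, c.q_b]
      ext l
      simp [Pi.single_apply]
    have h2 : φ ((uc k b).q (x - ∑ i, c.q x i • b i) j) = 0 :=
      Ideal.Quotient.eq_zero_iff_mem.2 (Ideal.subset_span ⟨_, h1, j, rfl⟩)
    rw [map_sub, Pi.sub_apply, map_sub, sub_eq_zero] at h2
    rw [h2, map_sum, Finset.sum_apply]
    have h3 : ∑ i, ((uc k b).q (c.q x i • b i)) j = algebraMap k (AR k b) (c.q x j) := by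
      simp only [map_smul, Pi.smul_apply, Chart.q_b, Pi.single_apply]
      simp [Algebra.smul_def]
    rw [h3]
    change φ (algebraMap k (AR k b) (c.q x j)) = algebraMap k (AR k b ⧸ N) (z ((uc k b).q x j))
    rw [hzq, φ.commutes]
  intro x hx
  have : φ x = 0 := by
    rw [hφψ]
    change algebraMap k _ (z x) = 0
    rw [RingHom.mem_ker.1 hx, map_zero]
  exact Ideal.Quotient.eq_zero_iff_mem.1 this

/-- the map `I → B/I` given by a linear form on the cotangent space -/
noncomputable def homOf {b : Fin d → B} (c : Chart k b k) (D : AR k b →ₗ[k] k)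
    (hD : ∀ x ∈ RingHom.ker (clf c) * RingHom.ker (clf c), D x = 0) :
    c.ker →ₗ[B] (B ⧸ c.ker) where
  toFun x := ∑ j, D ((uc k b).q x.1 j) • Ideal.Quotient.mk c.ker (b j)
  map_add' x y := by
    simp [add_smul, Finset.sum_add_distrib]
  map_smul' y x := by
    have hzq : ∀ x j, clf c ((uc k b).q x j) = c.q x j := by
      intro x j
      rw [← Chart.map_q, uc_map_clf]
    -- values of `D` on products
    have hprod : ∀ a a' : AR k b, clf c a = 0 → D (a * a') = clf c a' * D a := by
      intro a a' ha
      have h1 : a * (a' - algebraMap k _ (clf c a')) ∈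
          RingHom.ker (clf c) * RingHom.ker (clf c) := by
        apply Ideal.mul_mem_mul
        · exact ha
        · rw [RingHom.mem_ker, map_sub, AlgHom.commutes]
          simp
      have h2 := hD _ h1
      rw [mul_sub, map_sub, sub_eq_zero] at h2
      rw [h2, mul_comm a, ← Algebra.smul_def, map_smul, smul_eq_mul]
    have hx0 : ∀ j, clf c ((uc k b).q x.1 j) = 0 := by
      intro j
      rw [hzq, (Chart.mem_ker c x.1).1 x.2]
      rfl
    have h1 : ∀ l, D ((uc k b).q (y * x.1) l) =
        ∑ j, D ((uc k b).q x.1 j) * c.q (b j * y) l := by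
      intro l
      rw [mul_comm y, (uc k b).q_mul x.1 y, Finset.sum_apply, map_sum]
      refine Finset.sum_congr rfl fun j _ => ?_
      rw [Pi.smul_apply, smul_eq_mul, hprod _ _ (hx0 j), hzq, mul_comm]
    have h2 : ∀ j, Ideal.Quotient.mk c.ker (b j * y) =
        ∑ l, c.q (b j * y) l • Ideal.Quotient.mk c.ker (b l) := by
      intro j
      have h3 : b j * y - ∑ i, c.q (b j * y) i • b i ∈ c.ker := by
        rw [Chart.mem_ker, map_sub, map_sum]
        simp only [map_smul, c.q_b]
        ext l
        simp [Pi.single_apply]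
      rw [← Ideal.Quotient.eq_zero_iff_mem, map_sub, sub_eq_zero, map_sum] at h3
      rw [h3]
      rfl
    change ∑ l, D ((uc k b).q (y * x.1) l) • Ideal.Quotient.mk c.ker (b l) =
      y • ∑ j, D ((uc k b).q x.1 j) • Ideal.Quotient.mk c.ker (b j)
    simp only [h1, Finset.sum_smul, Finset.smul_sum]
    rw [Finset.sum_comm]
    refine Finset.sum_congr rfl fun j _ => ?_
    have h4 : y • D ((uc k b).q x.1 j) • Ideal.Quotient.mk c.ker (b j) =
        D ((uc k b).q x.1 j) • Ideal.Quotient.mk c.ker (b j * y) := by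
      rw [smul_comm, mul_comm (b j) y]
      rfl
    rw [h4, h2, Finset.smul_sum]
    refine Finset.sum_congr rfl fun l _ => ?_
    rw [smul_smul]

lemma homOf_apply {b : Fin d → B} (c : Chart k b k) (D : AR k b →ₗ[k] k)
    (hD : ∀ x ∈ RingHom.ker (clf c) * RingHom.ker (clf c), D x = 0) (x : c.ker) :
    homOf c D hD x = ∑ j, D ((uc k b).q x.1 j) • Ideal.Quotient.mk c.ker (b j) := rfl

/-- if the map is zero, the linear form is zero on the maximal ideal -/
lemma eq_zero_of_homOf {b : Fin d → B} (c : Chart k b k) (D : AR k b →ₗ[k] k)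
    (hD : ∀ x ∈ RingHom.ker (clf c) * RingHom.ker (clf c), D x = 0)
    (h : homOf c D hD = 0) : ∀ a ∈ RingHom.ker (clf c), D a = 0 := by
  have h1 : ∀ x ∈ c.ker, ∀ j, D ((uc k b).q x j) = 0 := by
    intro x hx j
    have h2 : homOf c D hD ⟨x, hx⟩ = 0 := by rw [h]; rfl
    rw [homOf_apply] at h2
    have h3 : ∑ j, D ((uc k b).q x j) • b j ∈ c.ker := by
      rw [← Ideal.Quotient.eq_zero_iff_mem, map_sum]
      exact h2
    rw [Chart.mem_ker, map_sum] at h3
    have h4 := congrFun h3 j
    rw [Finset.sum_apply] at h4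
    simpa [c.q_b, Pi.single_apply] using h4
  have hprod : ∀ a a' : AR k b, clf c a = 0 → D (a' * a) = clf c a' * D a := by
    intro a a' ha
    have h1 : a * (a' - algebraMap k _ (clf c a')) ∈
        RingHom.ker (clf c) * RingHom.ker (clf c) := by
      apply Ideal.mul_mem_mul
      · exact ha
      · rw [RingHom.mem_ker, map_sub, AlgHom.commutes]
        simp
    have h2 := hD _ h1
    rw [mul_sub, map_sub, sub_eq_zero] at h2
    rw [mul_comm, h2, mul_comm a, ← Algebra.smul_def, map_smul, smul_eq_mul]
  have hzq : ∀ x j, clf c ((uc k b).q x j) = c.q x j := by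
    intro x j
    rw [← Chart.map_q, uc_map_clf]
  intro a ha
  have ha' := ker_clf_le c ha
  induction ha' using Submodule.span_induction with
  | mem a h2 =>
    obtain ⟨x, hx, j, rfl⟩ := h2
    exact h1 x hx j
  | zero => simp
  | add a a' h2 h3 ih ih' =>
    have hmem : ∀ a ∈ Ideal.span {a | ∃ x ∈ c.ker, ∃ j : Fin d, a = (uc k b).q x j},
        a ∈ RingHom.ker (clf c) := by
      intro a ha
      have : Ideal.span {a | ∃ x ∈ c.ker, ∃ j : Fin d, a = (uc k b).q x j} ≤
          RingHom.ker (clf c) := by
        rw [Ideal.span_le]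
        rintro _ ⟨x, hx, j, rfl⟩
        rw [SetLike.mem_coe, RingHom.mem_ker]
        rw [hzq, (Chart.mem_ker c x).1 hx]
        rfl
      exact this ha
    rw [map_add, ih (hmem _ h2), ih' (hmem _ h3), add_zero]
  | smul r a h2 ih =>
    have hmem : a ∈ RingHom.ker (clf c) := by
      have : Ideal.span {a | ∃ x ∈ c.ker, ∃ j : Fin d, a = (uc k b).q x j} ≤
          RingHom.ker (clf c) := by
        rw [Ideal.span_le]
        rintro _ ⟨x, hx, j, rfl⟩
        rw [SetLike.mem_coe, RingHom.mem_ker]
        rw [hzq, (Chart.mem_ker c x).1 hx]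
        rfl
      exact this h2
    rw [smul_eq_mul, hprod _ _ hmem, ih hmem, mul_zero]

theorem stalk_le_hom [Algebra.FiniteType k B] {b : Fin d → B} (c : Chart k b k)
    (hfin : Module.Finite k (c.ker →ₗ[B] (B ⧸ c.ker))) :
    ringKrullDim ((HilbS k B d).presheaf.stalk (chartι k (Idx.single b) (zp c))) ≤
      ((finrank k (c.ker →ₗ[B] (B ⧸ c.ker)) : ℕ) : WithBot ℕ∞) := by
  classical
  have hnoeth := noetherian_AR (k := k) b
  set m := RingHom.ker (clf c) with hm
  -- the cotangent space as a quotient of the algebra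
  let M : Submodule k (AR k b) := m.restrictScalars k
  let M2 : Submodule k (AR k b) := (m * m).restrictScalars k
  have hM2 : M2 ≤ M := fun x hx => Ideal.mul_le_left hx
  let Q := M ⧸ M2.submoduleOf M
  -- finitely many generators of the maximal ideal
  obtain ⟨S, hS⟩ : m.FG := IsNoetherian.noetherian m
  have hSm : ∀ s ∈ S, s ∈ m := fun s hs => by
    rw [← hS]; exact Submodule.subset_span hs
  have hspan : ∀ x ∈ m, x ∈ Submodule.span k (S : Set (AR k b)) ⊔ M2 := by
    intro x hx
    rw [← hS] at hx
    have hx' : x ∈ Submodule.span (AR k b) (S : Set (AR k b)) := hx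
    induction hx' using Submodule.span_induction with
    | mem s hs => exact Submodule.mem_sup_left (Submodule.subset_span hs)
    | zero => exact Submodule.zero_mem _
    | add a a' h1 h2 ih ih' => exact Submodule.add_mem _ (ih h1) (ih' h2)
    | smul r a h1 ih =>
      have h2 := ih h1
      have ham : a ∈ m := by rw [← hS]; exact h1
      have h3 : r • a = clf c r • a + (r - algebraMap k _ (clf c r)) * a := by
        rw [sub_mul, Algebra.smul_def (clf c r) a, smul_eq_mul]
        ring
      rw [h3]
      refine Submodule.add_mem _ (Submodule.smul_mem _ _ h2) (Submodule.mem_sup_right ?_)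
      apply Ideal.mul_mem_mul _ ham
      rw [hm, RingHom.mem_ker, map_sub, AlgHom.commutes]
      simp
  have hQfin : Module.Finite k Q := by
    let g : S → Q := fun s => (M2.submoduleOf M).mkQ ⟨s.1, hSm s.1 s.2⟩
    refine ⟨⟨Finset.univ.image g, ?_⟩⟩
    rw [eq_top_iff]
    rintro q -
    obtain ⟨⟨x, hx⟩, rfl⟩ := Submodule.mkQ_surjective _ q
    obtain ⟨y, hy, w, hw, hyw⟩ := Submodule.mem_sup.1 (hspan x hx)
    have hyM : y ∈ M := by
      have h1 : Submodule.span k (S : Set (AR k b)) ≤ M := by
        rw [Submodule.span_le]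
        exact fun s hs => hSm s hs
      exact h1 hy
    have h1 : (M2.submoduleOf M).mkQ ⟨x, hx⟩ = (M2.submoduleOf M).mkQ ⟨y, hyM⟩ := by
      rw [← sub_eq_zero, ← map_sub, Submodule.mkQ_apply, Submodule.Quotient.mk_eq_zero]
      change (x - y) ∈ M2
      rw [← hyw, add_sub_cancel_left]
      exact hw
    rw [h1]
    have h2 : ∀ y (hy : y ∈ Submodule.span k (S : Set (AR k b))) (hyM : y ∈ M),
        (M2.submoduleOf M).mkQ ⟨y, hyM⟩ ∈
        Submodule.span k ((Finset.univ.image g : Finset Q) : Set Q) := by
      intro y hy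
      induction hy using Submodule.span_induction with
      | mem s hs =>
        intro hyM
        apply Submodule.subset_span
        simp only [Finset.coe_image, Finset.coe_univ, Set.image_univ, Set.mem_range]
        exact ⟨⟨s, hs⟩, rfl⟩
      | zero =>
        intro hyM
        have : (⟨0, hyM⟩ : M) = 0 := rfl
        rw [this, map_zero]
        exact Submodule.zero_mem _
      | add a a' h1 h2 ih ih' =>
        intro hyM
        have hle : Submodule.span k (S : Set (AR k b)) ≤ M := by
          rw [Submodule.span_le]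
          exact fun s hs => hSm s hs
        have : (⟨a + a', hyM⟩ : M) = ⟨a, hle h1⟩ + ⟨a', hle h2⟩ := rfl
        rw [this, map_add]
        exact Submodule.add_mem _ (ih _) (ih' _)
      | smul r a h1 ih =>
        intro hyM
        have hle : Submodule.span k (S : Set (AR k b)) ≤ M := by
          rw [Submodule.span_le]
          exact fun s hs => hSm s hs
        have : (⟨r • a, hyM⟩ : M) = r • ⟨a, hle h1⟩ := rfl
        rw [this, map_smul]
        exact Submodule.smul_mem _ _ (ih _)
    exact h2 y hy hyM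
  -- a basis of the cotangent space
  let bas : Basis (Fin (finrank k Q)) k Q := Module.finBasis k Q
  choose β hβ using fun i => Submodule.mkQ_surjective (M2.submoduleOf M) (bas i)
  have hle : finrank k Q ≤ finrank k (c.ker →ₗ[B] (B ⧸ c.ker)) := by
    -- extend linear forms on `Q` to the algebra
    obtain ⟨P, hP⟩ := Submodule.exists_isCompl M
    let pr : AR k b →ₗ[k] M := Submodule.projectionOnto M P hP
    have hpr : ∀ x : M, pr x.1 = x := fun x => Submodule.projectionOnto_apply_left hP x
    let Ψ : Module.Dual k Q →ₗ[k] (AR k b →ₗ[k] k) :=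
      { toFun := fun D => D ∘ₗ (M2.submoduleOf M).mkQ ∘ₗ pr
        map_add' := fun D D' => rfl
        map_smul' := fun r D => rfl }
    have hΨ : ∀ D (x : M), Ψ D x.1 = D ((M2.submoduleOf M).mkQ x) := by
      intro D x
      change D ((M2.submoduleOf M).mkQ (pr x.1)) = _
      rw [hpr]
    have hΨ0 : ∀ D, ∀ x ∈ m * m, Ψ D x = 0 := by
      intro D x hx
      have hxM : x ∈ M := hM2 hx
      rw [hΨ D ⟨x, hxM⟩]
      have : (M2.submoduleOf M).mkQ ⟨x, hxM⟩ = 0 := by
        rw [Submodule.mkQ_apply, Submodule.Quotient.mk_eq_zero]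
        exact hx
      rw [this, map_zero]
    let Φ : Module.Dual k Q →ₗ[k] (c.ker →ₗ[B] (B ⧸ c.ker)) :=
      { toFun := fun D => homOf c (Ψ D) (hΨ0 D)
        map_add' := by
          intro D D'
          ext x
          rw [LinearMap.add_apply, homOf_apply, homOf_apply, homOf_apply, map_add]
          simp only [LinearMap.add_apply, add_smul, Finset.sum_add_distrib]
        map_smul' := by
          intro r D
          ext x
          rw [LinearMap.smul_apply, homOf_apply, homOf_apply, map_smul]
          simp only [LinearMap.smul_apply, smul_eq_mul, mul_smul, Finset.smul_sum]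
          rfl }
    have hinj : Function.Injective Φ := by
      rw [injective_iff_map_eq_zero]
      intro D hD
      have h1 := eq_zero_of_homOf c (Ψ D) (hΨ0 D) hD
      apply LinearMap.ext
      intro q
      obtain ⟨x, rfl⟩ := Submodule.mkQ_surjective _ q
      rw [← hΨ, h1 x.1 x.2]
      rfl
    have h1 := LinearMap.finrank_le_finrank_of_injective hinj
    rwa [Subspace.dual_finrank_eq] at h1
  refine (stalk_le c (fun i => (β i).1) (fun i => (β i).2) ?_).trans ?_
  · intro x hx
    have h1 : (M2.submoduleOf M).mkQ ⟨x, hx⟩ = ∑ i, bas.repr ((M2.submoduleOf M).mkQ ⟨x, hx⟩) i •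
        (M2.submoduleOf M).mkQ (β i) := by
      conv_lhs => rw [← bas.sum_repr ((M2.submoduleOf M).mkQ ⟨x, hx⟩)]
      exact Finset.sum_congr rfl fun i _ => by rw [hβ]
    set r := fun i => bas.repr ((M2.submoduleOf M).mkQ ⟨x, hx⟩) i with hr
    have h2 : x - ∑ i, r i • (β i).1 ∈ M2 := by
      have h3 : (M2.submoduleOf M).mkQ (⟨x, hx⟩ - ∑ i, r i • β i) = 0 := by
        rw [map_sub, map_sum, sub_eq_zero, h1]
        exact Finset.sum_congr rfl fun i _ => by rw [map_smul]
      rw [Submodule.mkQ_apply, Submodule.Quotient.mk_eq_zero] at h3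
      have h4 : ((⟨x, hx⟩ - ∑ i, r i • β i : M) : AR k b) ∈ M2 := h3
      simpa using h4
    have h3 : x = ∑ i, r i • (β i).1 + (x - ∑ i, r i • (β i).1) := by ring
    rw [h3]
    refine Ideal.add_mem _ (Ideal.mem_sup_left ?_) (Ideal.mem_sup_right h2)
    refine Ideal.sum_mem _ fun i _ => ?_
    rw [Algebra.smul_def]
    exact Ideal.mul_mem_left _ _ (Ideal.subset_span ⟨i, rfl⟩)
  · rw [Fintype.card_fin]
    exact_mod_cast hle

end

section poly

variable {k : Type u} [Field k] {n d : ℕ}

theorem small_stalk_le {R : ℕ} {b : Fin d → MvPolynomial (Fin n) k} (c : Chart k b k)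
    (h : Small k R c.ker) :
    ringKrullDim ((HilbS k (MvPolynomial (Fin n) k) d).presheaf.stalk
      (chartι k (Idx.single b) (zp c))) ≤ (((n * R + 1) * d : ℕ) : WithBot ℕ∞) := by
  obtain ⟨h1, h2, h3⟩ := h.finrank_hom
  refine (stalk_le_hom c h2).trans ?_
  have h4 : finrank k (MvPolynomial (Fin n) k ⧸ c.ker) = d := by
    rw [c.quotEquiv.finrank_eq]
    simp
  rw [h4] at h3
  exact_mod_cast h3

theorem topDim_le_of_subset_small {R : ℕ}
    (b : Fin d → MvPolynomial (Fin n) k)
    (C : Set (HilbS k (MvPolynomial (Fin n) k) d)) (hC : IsIrreducible C)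
    (hsub : C ⊆ closure ((hilb k (MvPolynomial (Fin n) k) d).locus (Small k R)))
    (hne : (C ∩ Set.range (chartι k (Idx.single b))).Nonempty) :
    topologicalKrullDim C ≤ (((n * R + 1) * d : ℕ) : WithBot ℕ∞) := by
  have := noetherianSpace_chart (k := k) b
  obtain ⟨Y, hYc, hYi, hCY, x, hxS, hxY⟩ := exists_irreducible_meeting
    (chartι k (Idx.single b)) (chartι k (Idx.single b)).isOpenEmbedding _ C hC hsub hne
  obtain ⟨b', c, hrad, hr⟩ := exists_chart_of_mem_locus _ x hxS
  rw [mem_range_mor_iff] at hr
  have h1 : topologicalKrullDim C ≤ topologicalKrullDim Y :=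
    (Topology.IsEmbedding.inclusion hCY).isInducing.topologicalKrullDim_le
  refine h1.trans ?_
  have h2 := topDim_le_stalk (HilbS k (MvPolynomial (Fin n) k) d)
    (HilbS.str k (MvPolynomial (Fin n) k) d) Y hYc hYi x hxY (by
      rw [hr]
      exact isClosed_chartι_zp c)
  refine h2.trans ?_
  rw [hr]
  exact small_stalk_le c hrad

end poly

end Pool.Agent.TH169.EC
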