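import Mathlib
import Pool.Agent.TH169.EC.StalkBound
import Pool.Agent.Helper226.VCFam

set_option autoImplicit false

/-!
Disjoint unions of families of finite subschemes.
-/

open scoped TensorProduct
open CategoryTheory AlgebraicGeometry

universe u

namespace Pool.Agent.TH169.EC

open Module Pool.Agent.Helper226

section union

variable {k : Type u} [Field k] {B : Type u} [CommRing B] [Algebra k B] {d1 d2 d : ℕ}
variable {R : Type u} [CommRing R] [Algebra k R] {R' : Type u} [CommRing R'] [Algebra k R']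
variable {b1 : Fin d1 → B} {b2 : Fin d2 → B}

/-- the two coordinate functionals together -/
noncomputable def LL (e : Fin d1 ⊕ Fin d2 ≃ Fin d) (c1 : Chart k b1 R) (c2 : Chart k b2 R) :
    R ⊗[k] B →ₗ[R] (Fin d → R) :=
  (LinearEquiv.funCongrLeft R R e.symm).toLinearMap ∘ₗ
    (LinearEquiv.sumArrowLequivProdArrow (Fin d1) (Fin d2) R R).symm.toLinearMap ∘ₗ
      (c1.L.prod c2.L)

lemma LL_inl (e : Fin d1 ⊕ Fin d2 ≃ Fin d) (c1 : Chart k b1 R) (c2 : Chart k b2 R)
    (x : R ⊗[k] B) (i : Fin d1) : LL e c1 c2 x (e (Sum.inl i)) = c1.L x i := by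
  simp [LL, LinearEquiv.funCongrLeft, LinearMap.funLeft]

lemma LL_inr (e : Fin d1 ⊕ Fin d2 ≃ Fin d) (c1 : Chart k b1 R) (c2 : Chart k b2 R)
    (x : R ⊗[k] B) (i : Fin d2) : LL e c1 c2 x (e (Sum.inr i)) = c2.L x i := by
  simp [LL, LinearEquiv.funCongrLeft, LinearMap.funLeft]

lemma LL_eq_zero (e : Fin d1 ⊕ Fin d2 ≃ Fin d) (c1 : Chart k b1 R) (c2 : Chart k b2 R)
    (x : R ⊗[k] B) : LL e c1 c2 x = 0 ↔ c1.L x = 0 ∧ c2.L x = 0 := by
  constructor
  · intro h
    constructor
    · ext i
      rw [← LL_inl e c1 c2, h]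
      rfl
    · ext i
      rw [← LL_inr e c1 c2, h]
      rfl
  · rintro ⟨h1, h2⟩
    ext l
    obtain ⟨s, rfl⟩ := e.surjective l
    rcases s with i | i
    · rw [LL_inl, h1]; rfl
    · rw [LL_inr, h2]; rfl

/-- the matrix of the classes of `b` in the product of the two quotients -/
noncomputable def TT (e : Fin d1 ⊕ Fin d2 ≃ Fin d) (c1 : Chart k b1 R) (c2 : Chart k b2 R)
    (b : Fin d → B) : Matrix (Fin d) (Fin d) R :=
  Matrix.of fun i => LL e c1 c2 (1 ⊗ₜ[k] b i)

lemma TT_map (e : Fin d1 ⊕ Fin d2 ≃ Fin d) (c1 : Chart k b1 R) (c2 : Chart k b2 R)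
    (b : Fin d → B) (φ : R →ₐ[k] R') :
    TT e (c1.map φ) (c2.map φ) b = (TT e c1 c2 b).map φ := by
  ext i l
  obtain ⟨s, rfl⟩ := e.surjective l
  rcases s with j | j
  · simp [TT, LL_inl]
  · simp [TT, LL_inr]

lemma exists_union (e : Fin d1 ⊕ Fin d2 ≃ Fin d) (c1 : Chart k b1 R) (c2 : Chart k b2 R)
    (b : Fin d → B) (h : IsUnit (TT e c1 c2 b).det) :
    ∃ c : Chart k b R, c.ideal = c1.ideal ⊓ c2.ideal := by
  set M := TT e c1 c2 b with hM
  have hMi : M * M⁻¹ = 1 := Matrix.mul_nonsing_inv _ h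
  have hMi' : M⁻¹ * M = 1 := Matrix.nonsing_inv_mul _ h
  let L' : R ⊗[k] B →ₗ[R] (Fin d → R) := (Matrix.vecMulLinear M⁻¹) ∘ₗ (LL e c1 c2)
  have hL0 : ∀ x, L' x = 0 ↔ LL e c1 c2 x = 0 := by
    intro x
    simp only [L', LinearMap.coe_comp, Function.comp_apply, Matrix.vecMulLinear_apply]
    constructor
    · intro h0
      have := congrArg (fun v => Matrix.vecMul v M) h0
      simpa [Matrix.vecMul_vecMul, hMi'] using this
    · intro h0; simp [h0]
  refine ⟨Chart.mk' b L' ?_ ?_, ?_⟩
  · intro i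
    simp only [L', LinearMap.coe_comp, Function.comp_apply, Matrix.vecMulLinear_apply]
    have h1 : LL e c1 c2 (1 ⊗ₜ b i) = Matrix.vecMul (Pi.single i 1) M := by
      ext j
      simp [hM, TT]
    rw [h1, Matrix.vecMul_vecMul, hMi, Matrix.vecMul_one]
  · intro x y hx
    rw [hL0, LL_eq_zero] at hx ⊢
    refine ⟨?_, ?_⟩
    · rw [mul_comm]
      exact c1.ideal.mul_mem_left y hx.1
    · rw [mul_comm]
      exact c2.ideal.mul_mem_left y hx.2
  · ext x
    rw [Chart.mem_ideal, Chart.mk'_L, hL0, LL_eq_zero]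
    rfl

end union

section points

variable {k : Type u} [Field k] {B : Type u} [CommRing B] [Algebra k B] {d : ℕ}

/-- The point of the ideal `I` lies in the set `U`. -/
def InU (U : Set (HilbS k B d)) (I : Ideal B) : Prop :=
  ∃ (b : Fin d → B) (c : Chart k b k), c.ker = I ∧ chartι k (Idx.single b) (zp c) ∈ U

lemma chartι_zp_eq {b b' : Fin d → B} (c : Chart k b k) (c' : Chart k b' k)
    (h : c.ker = c'.ker) :
    chartι k (Idx.single b) (zp c) = chartι k (Idx.single b') (zp c') := by
  have h1 := mor_eq_of_ideal_eq c c' (Chart.ideal_eq_of_ker_eq h)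
  rw [← mem_range_mor_iff c', ← h1, mem_range_mor_iff]

lemma inU_iff {U : Set (HilbS k B d)} {b : Fin d → B} (c : Chart k b k) :
    InU U c.ker ↔ chartι k (Idx.single b) (zp c) ∈ U := by
  constructor
  · rintro ⟨b', c', h, hU⟩
    rwa [← chartι_zp_eq c' c h]
  · intro h
    exact ⟨b, c, rfl, h⟩

/-- the point of a homomorphism to the field -/
noncomputable def kp {P : Type u} [CommRing P] [Algebra k P] (g : P →ₐ[k] k) :
    Spec (CommRingCat.of P) :=
  (⟨RingHom.ker g, RingHom.ker_isPrime g⟩ : PrimeSpectrum P)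

lemma kp_asIdeal {P : Type u} [CommRing P] [Algebra k P] (g : P →ₐ[k] k) :
    (kp g).asIdeal = RingHom.ker g := rfl

lemma mor_kp {P : Type u} [CommRing P] [Algebra k P] {b : Fin d → B} (c : Chart k b P)
    (g : P →ₐ[k] k) : mor c (kp g) = chartι k (Idx.single b) (zp (c.map g)) := by
  rw [← mem_range_mor_iff]
  exact mor_point c g (kp g) rfl

lemma inU_map {U : Set (HilbS k B d)} {P : Type u} [CommRing P] [Algebra k P] {b : Fin d → B}
    (c : Chart k b P) (g : P →ₐ[k] k) : InU U (c.map g).ker ↔ mor c (kp g) ∈ U := by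
  rw [mor_kp, inU_iff]

lemma zp_eq_kp {b : Fin d → B} (c : Chart k b k) : zp c = kp (clf c) := rfl

lemma mem_locus_iff (P : Ideal B → Prop) {b : Fin d → B} (c : Chart k b k) :
    chartι k (Idx.single b) (zp c) ∈ (hilb k B d).locus P ↔ P c.ker := by
  constructor
  · intro h
    obtain ⟨b', c', hP, hr⟩ := exists_chart_of_mem_locus _ _ h
    rw [mem_range_mor_iff] at hr
    have h1 : c.ker = c'.ker := by
      have h2 : chartι k (Idx.single b) (zp c) ∈ (hilb k B d).locus (fun I => I = c'.ker) := by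
        rw [hr]
        exact chartι_zp_mem_locus c' _ rfl
      obtain ⟨c'', h3, h4⟩ := exists_chart_in _ (zp c) h2
      have h5 : c = c'' := by
        have h6 : RingHom.ker (clf c) = RingHom.ker (clf c'') := by
          rw [← zp_asIdeal, ← zp_asIdeal, h4]
        have h7 : clf c = clf c'' := by
          apply AlgHom.ext
          intro x
          have h8 : x - algebraMap k _ (clf c x) ∈ RingHom.ker (clf c) := by
            rw [RingHom.mem_ker, map_sub, AlgHom.commutes]
            simp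
          rw [h6, RingHom.mem_ker, map_sub, AlgHom.commutes] at h8
          exact (sub_eq_zero.1 h8).symm
        rw [← uc_map_clf c, ← uc_map_clf c'', h7]
      rw [h5, h3]
    rw [h1]
    exact hP
  · exact chartι_zp_mem_locus c P

/-- a chart datum for a given ideal of colength `d` -/
lemma exists_chart_of_finrank (I : Ideal B) [Module.Finite k (B ⧸ I)]
    (h : finrank k (B ⧸ I) = d) : ∃ (b : Fin d → B) (c : Chart k b k), c.ker = I := by
  subst h
  let bas := Module.finBasis k (B ⧸ I)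
  choose β hβ using fun i => Ideal.Quotient.mk_surjective (bas i)
  let q : B →ₗ[k] (Fin (finrank k (B ⧸ I)) → k) :=
    bas.equivFun.toLinearMap ∘ₗ (Ideal.Quotient.mkₐ k I).toLinearMap
  have hq : ∀ x, q x = bas.equivFun (Ideal.Quotient.mk I x) := fun x => rfl
  have hsum : ∀ x, Ideal.Quotient.mk I x = ∑ j, q x j • Ideal.Quotient.mk I (β j) := by
    intro x
    conv_lhs => rw [← bas.sum_equivFun (Ideal.Quotient.mk I x)]
    exact Finset.sum_congr rfl fun j _ => by rw [hβ, hq]
  refine ⟨β, ⟨q, ?_, ?_⟩, ?_⟩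
  · intro i
    rw [hq, hβ]
    ext j
    rw [Module.Basis.equivFun_self, Pi.single_apply]
    simp only [eq_comm]
  · intro x y
    rw [hq, map_mul, hsum x, Finset.sum_mul, map_sum]
    refine Finset.sum_congr rfl fun j _ => ?_
    rw [smul_mul_assoc, map_smul, ← map_mul, hq, hq (β j * y)]
  · ext x
    rw [Chart.mem_ker]
    change q x = 0 ↔ _
    rw [hq, LinearEquiv.map_eq_zero_iff, Ideal.Quotient.eq_zero_iff_mem]

lemma finrank_ker {b : Fin d → B} (c : Chart k b k) :
    Module.Finite k (B ⧸ c.ker) ∧ finrank k (B ⧸ c.ker) = d := by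
  refine ⟨Module.Finite.equiv c.quotEquiv.symm, ?_⟩
  rw [c.quotEquiv.finrank_eq]
  simp

end points

section open_

variable {k : Type u} [Field k] {B : Type u} [CommRing B] [Algebra k B] {d1 d2 d : ℕ}

lemma map_ofId {b : Fin d → B} (c : Chart k b k) {P : Type u} [CommRing P] [Algebra k P]
    (g : P →ₐ[k] k) : (c.map (Algebra.ofId k P)).map g = c := by
  rw [Chart.map_map]
  have : g.comp (Algebra.ofId k P) = AlgHom.id k k := by
    apply AlgHom.ext
    intro x
    change g (algebraMap k P x) = x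
    rw [AlgHom.commutes]
    rfl
  rw [this, Chart.map_id]

/-- if the intersection has full colength the ideals are coprime -/
lemma coprime_of_ker {b1 : Fin d1 → B} {b2 : Fin d2 → B} {b : Fin d → B}
    (c1 : Chart k b1 k) (c2 : Chart k b2 k) (c : Chart k b k) (hd : d = d1 + d2)
    (h : c.ker = c1.ker ⊓ c2.ker) : IsCoprime c1.ker c2.ker := by
  obtain ⟨f1, r1⟩ := finrank_ker c1
  obtain ⟨f2, r2⟩ := finrank_ker c2
  obtain ⟨f3, r3⟩ := finrank_ker c
  let Φ : (B ⧸ c.ker) →ₗ[k] (B ⧸ c1.ker) × (B ⧸ c2.ker) :=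
    (Ideal.Quotient.factorₐ k (h ▸ inf_le_left : c.ker ≤ c1.ker)).toLinearMap.prod
      (Ideal.Quotient.factorₐ k (h ▸ inf_le_right : c.ker ≤ c2.ker)).toLinearMap
  have hΦ : ∀ x, Φ (Ideal.Quotient.mk c.ker x) =
      (Ideal.Quotient.mk c1.ker x, Ideal.Quotient.mk c2.ker x) := fun x => rfl
  have hinj : Function.Injective Φ := by
    rw [injective_iff_map_eq_zero]
    intro x hx
    obtain ⟨x, rfl⟩ := Ideal.Quotient.mk_surjective x
    rw [hΦ, Prod.mk_eq_zero, Ideal.Quotient.eq_zero_iff_mem, Ideal.Quotient.eq_zero_iff_mem] at hx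
    rw [Ideal.Quotient.eq_zero_iff_mem, h]
    exact hx
  have hsurj : Function.Surjective Φ := by
    rw [← LinearMap.injective_iff_surjective_of_finrank_eq_finrank]
    · exact hinj
    · rw [Module.finrank_prod, r1, r2, r3, hd]
  obtain ⟨x, hx⟩ := hsurj (1, 0)
  obtain ⟨x, rfl⟩ := Ideal.Quotient.mk_surjective x
  rw [hΦ, Prod.mk.injEq] at hx
  rw [Ideal.isCoprime_iff_exists]
  refine ⟨1 - x, ?_, x, ?_, by ring⟩
  · rw [← Ideal.Quotient.eq_zero_iff_mem, map_sub, hx.1, map_one, sub_self]
  · rw [← Ideal.Quotient.eq_zero_iff_mem, hx.2]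

/-- Moving one part of a disjoint union. -/
theorem exists_open_union (hd : d = d1 + d2) {b1 : Fin d1 → B} {b2 : Fin d2 → B}
    (c1 : Chart k b1 k) (c2 : Chart k b2 k) (hco : IsCoprime c1.ker c2.ker)
    (U : Set (HilbS k B d)) (hU : IsOpen U) (hmem : InU U (c1.ker ⊓ c2.ker)) :
    ∃ U1 : Set (HilbS k B d1), IsOpen U1 ∧ InU U1 c1.ker ∧
      ∀ I : Ideal B, InU U1 I → IsCoprime I c2.ker ∧ InU U (I ⊓ c2.ker) := by
  classical
  let e : Fin d1 ⊕ Fin d2 ≃ Fin d := finSumFinEquiv.trans (finCongr hd.symm)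
  -- elements mapping to the standard basis
  have hex : ∀ v : Fin d → k, ∃ y : B, LL e c1 c2 (1 ⊗ₜ[k] y) = v := by
    obtain ⟨i, hi, j, hj, hij⟩ := Ideal.isCoprime_iff_exists.1 hco
    intro v
    refine ⟨j * (∑ l, v (e (Sum.inl l)) • b1 l) + i * (∑ l, v (e (Sum.inr l)) • b2 l), ?_⟩
    have q1 : ∀ y, c1.q (j * y) = c1.q y := by
      intro y
      have h1 : j * y = y - i * y := by
        rw [← sub_eq_of_eq_add' hij.symm]
        ring
      rw [h1, map_sub, (Chart.mem_ker c1 _).1 (Ideal.mul_mem_right y _ hi), sub_zero]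
    have q1' : ∀ y, c1.q (i * y) = 0 := fun y =>
      (Chart.mem_ker c1 _).1 (Ideal.mul_mem_right y _ hi)
    have q2 : ∀ y, c2.q (i * y) = c2.q y := by
      intro y
      have h1 : i * y = y - j * y := by
        rw [← sub_eq_of_eq_add hij.symm]
        ring
      rw [h1, map_sub, (Chart.mem_ker c2 _).1 (Ideal.mul_mem_right y _ hj), sub_zero]
    have q2' : ∀ y, c2.q (j * y) = 0 := fun y =>
      (Chart.mem_ker c2 _).1 (Ideal.mul_mem_right y _ hj)
    ext l
    obtain ⟨s, rfl⟩ := e.surjective l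
    rcases s with l | l
    · rw [LL_inl, Chart.L_tmul, one_smul, map_add, q1, q1', add_zero, map_sum, Finset.sum_apply]
      simp [Chart.q_b, Pi.single_apply]
    · rw [LL_inr, Chart.L_tmul, one_smul, map_add, q2, q2', zero_add, map_sum, Finset.sum_apply]
      simp [Chart.q_b, Pi.single_apply]
  choose b hb using fun i : Fin d => hex (Pi.single i 1)
  -- the family over the chart
  set P := AR k b1 with hP
  let cP := uc k b1
  let c2P := c2.map (Algebra.ofId k P)
  let δ : P := (TT e cP c2P b).det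
  have hδ : clf c1 δ = 1 := by
    have h1 : clf c1 δ = (TT e c1 c2 b).det := by
      have h2 : TT e c1 c2 b = (TT e cP c2P b).map (clf c1) := by
        rw [← TT_map, map_ofId, uc_map_clf]
      rw [h2]
      exact RingHom.map_det (clf c1).toRingHom _
    rw [h1]
    have h2 : TT e c1 c2 b = 1 := by
      ext i l
      simp only [TT, Matrix.of_apply, hb]
      rw [Matrix.one_apply, Pi.single_apply]
      simp only [eq_comm]
    rw [h2, Matrix.det_one]
  let Q := Localization.Away δ
  let loc : P →ₐ[k] Q := IsScalarTower.toAlgHom k P Q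
  have hunit : IsUnit (TT e (cP.map loc) (c2P.map loc) b).det := by
    have h1 : (TT e (cP.map loc) (c2P.map loc) b).det = loc δ := by
      rw [TT_map]
      exact (RingHom.map_det loc.toRingHom _).symm
    rw [h1]
    exact IsLocalization.Away.algebraMap_isUnit δ
  obtain ⟨C, hC⟩ := exists_union e (cP.map loc) (c2P.map loc) b hunit
  -- points of the localisation
  have hlift : ∀ g : P →ₐ[k] k, g δ ≠ 0 → ∃ g' : Q →ₐ[k] k, g'.comp loc = g := by
    intro g hg
    have h1 : ∀ y : Submonoid.powers δ, IsUnit (g y) := by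
      rintro ⟨_, n, rfl⟩
      rw [map_pow]
      exact (IsUnit.mk0 _ hg).pow n
    refine ⟨IsLocalization.liftAlgHom (M := Submonoid.powers δ) (f := g) h1, ?_⟩
    apply AlgHom.ext
    intro x
    simp [loc]
  -- ideals of the points
  have hker : ∀ g' : Q →ₐ[k] k, (C.map g').ker =
      ((cP.map (g'.comp loc)).ker ⊓ c2.ker : Ideal B) := by
    intro g'
    have hu : IsUnit (TT e ((cP.map loc).map g') ((c2P.map loc).map g') b).det := by
      rw [TT_map]
      have h1 := hunit.map g'.toRingHom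
      rw [RingHom.map_det] at h1
      exact h1
    obtain ⟨C', hC'⟩ := exists_union e ((cP.map loc).map g') ((c2P.map loc).map g') b hu
    -- the union chart over the field is the specialisation
    have h2 : C.map g' = C' := by
      -- both are determined by `TT`
      have hdet : ∀ {S : Type u} [CommRing S] [Algebra k S] (a1 : Chart k b1 S) (a2 : Chart k b2 S)
          (a : Chart k b S), a.ideal = a1.ideal ⊓ a2.ideal → ∀ x,
          LL e a1 a2 (1 ⊗ₜ[k] x) = Matrix.vecMul (a.q x) (TT e a1 a2 b) := by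
        intro S _ _ a1 a2 a ha x
        have h3 := a.sub_expand_mem (1 ⊗ₜ x)
        rw [ha] at h3
        have h4 : LL e a1 a2 ((1 : S) ⊗ₜ[k] x - Chart.expand S b (a.L (1 ⊗ₜ x))) = 0 :=
          (LL_eq_zero e a1 a2 _).2 ⟨h3.1, h3.2⟩
        rw [map_sub, sub_eq_zero] at h4
        rw [h4, Chart.expand_apply, map_sum]
        ext l
        rw [Finset.sum_apply, Matrix.vecMul, dotProduct]
        refine Finset.sum_congr rfl fun i _ => ?_
        have h5 : a.L ((1 : S) ⊗ₜ[k] x) i ⊗ₜ[k] b i = a.q x i • ((1 : S) ⊗ₜ[k] b i) := by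
          rw [TensorProduct.smul_tmul', smul_eq_mul, mul_one, Chart.L_tmul, one_smul]
        rw [h5, map_smul, Pi.smul_apply, smul_eq_mul]
        rfl
      ext x : 1
      have e1 := hdet _ _ _ hC' x
      have e2 := hdet _ _ _ hC x
      have e3 : LL e ((cP.map loc).map g') ((c2P.map loc).map g') (1 ⊗ₜ[k] x) =
          Matrix.vecMul ((C.map g').q x) (TT e ((cP.map loc).map g') ((c2P.map loc).map g') b) := by
        ext l
        have h6 : LL e ((cP.map loc).map g') ((c2P.map loc).map g') (1 ⊗ₜ[k] x) l =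
            g' (LL e (cP.map loc) (c2P.map loc) (1 ⊗ₜ[k] x) l) := by
          obtain ⟨s, rfl⟩ := e.surjective l
          rcases s with j | j
          · simp [LL_inl]
          · simp [LL_inr]
        rw [h6, e2, TT_map e (cP.map loc) (c2P.map loc) b g']
        simp only [Matrix.vecMul, dotProduct, map_sum, map_mul, Matrix.map_apply, Chart.map_q]
      rw [e1] at e3
      have e4 := congrArg (fun v => Matrix.vecMul v
        (TT e ((cP.map loc).map g') ((c2P.map loc).map g') b)⁻¹) e3
      simp only [Matrix.vecMul_vecMul, Matrix.mul_nonsing_inv _ hu, Matrix.vecMul_one] at e4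
      exact e4.symm
    rw [h2]
    have h7 : ∀ x : B, x ∈ C'.ker ↔ x ∈ ((cP.map (g'.comp loc)).ker ⊓ c2.ker : Ideal B) := by
      intro x
      have h8 : ((1 : k) ⊗ₜ[k] x) ∈ C'.ideal ↔ ((1 : k) ⊗ₜ[k] x) ∈ ((cP.map loc).map g').ideal ⊓
          ((c2P.map loc).map g').ideal := by rw [hC']
      rw [Chart.mem_ideal, Chart.L_tmul, one_smul, Submodule.mem_inf, Chart.mem_ideal,
        Chart.mem_ideal, Chart.L_tmul, Chart.L_tmul, one_smul, one_smul] at h8
      rw [Chart.mem_ker, h8, Submodule.mem_inf, Chart.mem_ker, Chart.mem_ker]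
      have h9 : (c2P.map loc).map g' = c2 := by
        rw [Chart.map_map]
        exact map_ofId c2 _
      rw [h9, Chart.map_map]
    ext x
    exact h7 x
  -- the open set
  let V : Set (Spec (CommRingCat.of Q)) := mor C ⁻¹' U
  have hV : IsOpen V := hU.preimage (mor C).continuous
  let j : Spec (CommRingCat.of Q) ⟶ Spec (CommRingCat.of P) :=
    Spec.map (CommRingCat.ofHom (algebraMap P Q))
  have hj : Topology.IsOpenEmbedding j :=
    PrimeSpectrum.localization_away_isOpenEmbedding Q δ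
  have hι := (chartι k (Idx.single b1)).isOpenEmbedding
  refine ⟨chartι k (Idx.single b1) '' (j '' V), hι.isOpenMap _ (hj.isOpenMap _ hV), ?_, ?_⟩
  · rw [inU_iff]
    obtain ⟨g', hg'⟩ := hlift (clf c1) (by rw [hδ]; exact one_ne_zero)
    refine ⟨zp c1, ⟨kp g', ?_, ?_⟩, rfl⟩
    · change mor C (kp g') ∈ U
      rw [← inU_map, hker, hg', uc_map_clf]
      exact hmem
    · apply PrimeSpectrum.ext
      change Ideal.comap (algebraMap P Q) (RingHom.ker g') = RingHom.ker (clf c1)
      rw [← hg']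
      rfl
  · intro I hI
    obtain ⟨b1', c1', rfl, hmem1⟩ := hI
    obtain ⟨o, ⟨v, hv, rfl⟩, ho⟩ := hmem1
    have h1 : chartι k (Idx.single b1) (j v) ∈ (hilb k B d1).locus (fun I => I = c1'.ker) := by
      rw [ho]
      exact chartι_zp_mem_locus c1' _ rfl
    obtain ⟨c1'', h2, h3⟩ := exists_chart_in _ (j v) h1
    have h4 : clf c1'' δ ≠ 0 := by
      intro h5
      have h6 : δ ∈ (j v).asIdeal := by
        rw [h3, zp_asIdeal, RingHom.mem_ker]
        exact h5
      have h7 : algebraMap P Q δ ∈ v.asIdeal := h6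
      exact v.isPrime.ne_top (Ideal.eq_top_of_isUnit_mem _ h7
        (IsLocalization.Away.algebraMap_isUnit δ))
    obtain ⟨g', hg'⟩ := hlift (clf c1'') h4
    have h5 : v = kp g' := by
      apply hj.injective
      rw [h3]
      apply PrimeSpectrum.ext
      change RingHom.ker (clf c1'') = Ideal.comap (algebraMap P Q) (RingHom.ker g')
      rw [← hg']
      rfl
    have h6 : (C.map g').ker = (c1'.ker ⊓ c2.ker : Ideal B) := by
      rw [hker, hg', uc_map_clf, h2]
    refine ⟨coprime_of_ker c1' c2 (C.map g') hd h6, ?_⟩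
    rw [← h6, inU_map, ← h5]
    exact hv

end open_

end Pool.Agent.TH169.EC
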