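import Mathlib
import Pool.Agent.TH169.EC.Union
import Pool.Agent.TH169.EC.Decomp
import Pool.Agent.Helper226.SHilb

set_option autoImplicit false

/-!
Very compressed families in three variables have superlinear dimension.
-/

open scoped TensorProduct
open CategoryTheory AlgebraicGeometry MvPolynomial

universe u

namespace Pool.Agent.TH169.EC

open Module Pool.Agent.Helper226

/-- monomials of degree `i` in `n` variables -/
noncomputable abbrev Mon (n i : ℕ) : Finset (Fin n →₀ ℕ) :=
  (Finset.univ : Finset (Fin n)).finsuppAntidiag i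

lemma mem_Mon {n i : ℕ} {μ : Fin n →₀ ℕ} : μ ∈ Mon n i ↔ μ.degree = i := by
  rw [Finset.mem_finsuppAntidiag, Finsupp.degree_eq_sum]
  simp

lemma card_Mon3 (i : ℕ) : (Mon 3 i).card = (i + 2).choose 2 := by
  have h := SData.card_Mi (n := 3) i (by norm_num)
  rw [Fintype.card_coe] at h
  exact h

section data

variable {n s : ℕ} (Es : Finset (Fin n →₀ ℕ)) (hEs : Es ⊆ Mon n s)

/-- all basis monomials -/
noncomputable def basSet (s : ℕ) (Es : Finset (Fin n →₀ ℕ)) : Finset (Fin n →₀ ℕ) :=
  ((Finset.range s).biUnion fun i => Mon n i) ∪ Es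

include hEs in
lemma deg_basSet {μ : Fin n →₀ ℕ} (h : μ ∈ basSet s Es) : μ.degree ≤ s := by
  rcases Finset.mem_union.1 h with h | h
  · obtain ⟨i, hi, h2⟩ := Finset.mem_biUnion.1 h
    rw [mem_Mon] at h2
    rw [Finset.mem_range] at hi
    omega
  · exact (mem_Mon.1 (hEs h)).le

lemma basSet_top {μ : Fin n →₀ ℕ} (h : μ.degree = s) : μ ∈ basSet s Es ↔ μ ∈ Es := by
  constructor
  · intro h1
    rcases Finset.mem_union.1 h1 with h1 | h1
    · obtain ⟨i, hi, h2⟩ := Finset.mem_biUnion.1 h1
      rw [mem_Mon] at h2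
      rw [Finset.mem_range] at hi
      omega
    · exact h1
  · intro h1
    exact Finset.mem_union_right _ h1

/-- the data of the family -/
noncomputable def famData : SData n s (basSet s Es).card where
  e j := ((basSet s Es).equivFin.symm j : Fin n →₀ ℕ)
  e_inj := fun i j h => (basSet s Es).equivFin.symm.injective (Subtype.ext h)
  e_deg := fun j => deg_basSet Es hEs ((basSet s Es).equivFin.symm j).2
  e_small := by
    intro μ hμ
    have h1 : μ ∈ basSet s Es := by
      apply Finset.mem_union_left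
      rw [Finset.mem_biUnion]
      exact ⟨μ.degree, Finset.mem_range.2 hμ, mem_Mon.2 rfl⟩
    exact ⟨(basSet s Es).equivFin ⟨μ, h1⟩, by simp⟩

lemma exists_e_iff (μ : Fin n →₀ ℕ) : (∃ j, (famData Es hEs).e j = μ) ↔ μ ∈ basSet s Es := by
  constructor
  · rintro ⟨j, rfl⟩
    exact ((basSet s Es).equivFin.symm j).2
  · intro h
    exact ⟨(basSet s Es).equivFin ⟨μ, h⟩, by simp [famData]⟩

/-- indices of the free coefficients -/
abbrev NE : Type :=
  {μ : Fin n →₀ ℕ // μ ∈ Mon n s \ Es} × {j : Fin (basSet s Es).card // ((famData Es hEs).e j).degree = s}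

lemma card_NE : Fintype.card (NE Es hEs) = (Mon n s \ Es).card * Es.card := by
  have h1 : Fintype.card {j : Fin (basSet s Es).card // ((famData Es hEs).e j).degree = s} =
      Es.card := by
    rw [← Fintype.card_coe Es]
    refine Fintype.card_congr (Equiv.ofBijective (fun j => ⟨(famData Es hEs).e j.1, ?_⟩) ⟨?_, ?_⟩)
    · exact (basSet_top Es j.2).1 ((exists_e_iff Es hEs _).1 ⟨j.1, rfl⟩)
    · intro i j h
      have h2 := congrArg Subtype.val h
      have h3 : (famData Es hEs).e i.1 = (famData Es hEs).e j.1 := h2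
      exact Subtype.ext ((famData Es hEs).e_inj h3)
    · rintro ⟨μ, hμ⟩
      have hd : μ.degree = s := mem_Mon.1 (hEs hμ)
      obtain ⟨j, hj⟩ := (exists_e_iff Es hEs μ).2 ((basSet_top Es hd).2 hμ)
      exact ⟨⟨j, by rw [hj]; exact hd⟩, Subtype.ext hj⟩
  rw [Fintype.card_prod, h1, Fintype.card_coe]

variable (z : Fin n) (hz : Finsupp.single z s ∉ Es) (hs : 1 ≤ s)

include hz in
lemma e_ne_z (j : Fin (basSet s Es).card) : (famData Es hEs).e j ≠ Finsupp.single z s := by
  intro h
  have h1 : Finsupp.single z s ∈ basSet s Es := (exists_e_iff Es hEs _).1 ⟨j, h⟩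
  rw [basSet_top Es (by simp)] at h1
  exact hz h1

open Classical in
/-- the coefficients of the family -/
noncomputable def AA (k : Type u) [Field k] (μ : Fin n →₀ ℕ) (j : Fin (basSet s Es).card) :
    MvPolynomial (ULift.{u} (NE Es hEs)) k :=
  if h : μ ∈ Mon n s \ Es ∧ ((famData Es hEs).e j).degree = s then X ⟨(⟨μ, h.1⟩, ⟨j, h.2⟩)⟩ else 0

/-- the family -/
noncomputable def fam (k : Type u) [Field k] :
    Chart k (mb k (famData Es hEs).e) (MvPolynomial (ULift.{u} (NE Es hEs)) k) :=
  (famData Es hEs).hchart k (AA Es hEs k) z (e_ne_z Es hEs z hz) hs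

lemma clf_fam_surjective (k : Type u) [Field k] :
    Function.Surjective (clf (fam Es hEs z hz hs k)) := by
  rw [← AlgHom.range_eq_top, eq_top_iff, ← MvPolynomial.adjoin_range_X, Algebra.adjoin_le_iff]
  rintro _ ⟨⟨⟨μ, hμ⟩, ⟨j, hj⟩⟩, rfl⟩
  refine ⟨(uc k (mb k (famData Es hEs).e)).q (monomial μ 1) j, ?_⟩
  have h1 := uc_map_clf (fam Es hEs z hz hs k)
  have h2 : clf (fam Es hEs z hz hs k) ((uc k (mb k (famData Es hEs).e)).q (monomial μ 1) j) =
      (fam Es hEs z hz hs k).q (monomial μ 1) j := by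
    rw [← Chart.map_q, h1]
  change clf (fam Es hEs z hz hs k) _ = _
  have hd : μ.degree = s := mem_Mon.1 (Finset.mem_sdiff.1 hμ).1
  rw [h2]
  unfold fam
  rw [SData.hchart_q, if_pos hd.le, SData.top_not]
  · simp only [hj, if_true]
    unfold AA
    rw [dif_pos ⟨hμ, hj⟩]
  · rw [exists_e_iff, basSet_top Es hd]
    exact (Finset.mem_sdiff.1 hμ).2

/-- the family is topologically embedded -/
lemma mor_fam_isInducing (k : Type u) [Field k] :
    Topology.IsInducing (mor (fam Es hEs z hz hs k)) := by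
  unfold mor
  have h1 : Topology.IsClosedEmbedding
      (Spec.map (CommRingCat.ofHom (clf (fam Es hEs z hz hs k)).toRingHom)) :=
    PrimeSpectrum.isClosedEmbedding_comap_of_surjective _ _ (clf_fam_surjective Es hEs z hz hs k)
  have h2 := (chartι k (Idx.single (mb k (famData Es hEs).e))).isOpenEmbedding
  exact (h2.isInducing.comp h1.isInducing)

/-- The closure of the family. -/
def famCl (k : Type u) [Field k] : Set (HilbS k (MvPolynomial (Fin n) k) (basSet s Es).card) :=
  closure (Set.range (mor (fam Es hEs z hz hs k)))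

lemma famCl_irreducible (k : Type u) [Field k] : IsIrreducible (famCl Es hEs z hz hs k) := by
  unfold famCl
  apply IsIrreducible.closure
  rw [← Set.image_univ]
  have : IrreducibleSpace (Spec (CommRingCat.of (MvPolynomial (ULift.{u} (NE Es hEs)) k))) :=
    inferInstanceAs (IrreducibleSpace (PrimeSpectrum (MvPolynomial (ULift.{u} (NE Es hEs)) k)))
  exact (IrreducibleSpace.isIrreducible_univ _).image _
    (mor (fam Es hEs z hz hs k)).continuous.continuousOn

lemma famCl_dim (k : Type u) [Field k] :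
    (((Mon n s \ Es).card * Es.card : ℕ) : WithBot ℕ∞) ≤
      topologicalKrullDim (famCl Es hEs z hz hs k) := by
  have h1 : ringKrullDim (MvPolynomial (ULift.{u} (NE Es hEs)) k) =
      (((Mon n s \ Es).card * Es.card : ℕ) : WithBot ℕ∞) := by
    rw [MvPolynomial.ringKrullDim_of_isNoetherianRing, ringKrullDim_eq_zero_of_field, ← card_NE Es hEs]
    simp
  rw [← h1, ← PrimeSpectrum.topologicalKrullDim_eq_ringKrullDim]
  let f : PrimeSpectrum (MvPolynomial (ULift.{u} (NE Es hEs)) k) → famCl Es hEs z hz hs k :=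
    fun x => ⟨mor (fam Es hEs z hz hs k) x, subset_closure ⟨x, rfl⟩⟩
  have hf : Topology.IsInducing f := by
    have h2 : Topology.IsInducing (Subtype.val ∘ f) := mor_fam_isInducing Es hEs z hz hs k
    exact Topology.IsInducing.subtypeVal.of_comp_iff.1 h2
  exact hf.topologicalKrullDim_le

lemma famCl_meets (k : Type u) [Field k] :
    (famCl Es hEs z hz hs k ∩
      Set.range (chartι k (Idx.single (mb k (famData Es hEs).e)))).Nonempty := by
  have : Nonempty (PrimeSpectrum (MvPolynomial (ULift.{u} (NE Es hEs)) k)) := inferInstance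
  obtain ⟨x⟩ := this
  let x' : Spec (CommRingCat.of (MvPolynomial (ULift.{u} (NE Es hEs)) k)) := x
  exact ⟨mor (fam Es hEs z hz hs k) x', subset_closure ⟨x', rfl⟩,
    ⟨Spec.map (CommRingCat.ofHom (clf (fam Es hEs z hz hs k)).toRingHom) x', rfl⟩⟩

end data

/-- For every bound `K` there is a length `d` and an irreducible subset of the Hilbert scheme of
`d` points of affine 3-space of dimension larger than `K d`. -/
theorem exists_large (k : Type u) [Field k] (K : ℕ) :
    ∃ (d : ℕ) (b : Fin d → MvPolynomial (Fin 3) k) (C : Set (HilbS k (MvPolynomial (Fin 3) k) d)),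
      IsIrreducible C ∧ (C ∩ Set.range (chartι k (Idx.single b))).Nonempty ∧
        ((K * d : ℕ) : WithBot ℕ∞) < topologicalKrullDim C := by
  obtain ⟨s, hs⟩ : ∃ s, s = 8 * K + 8 := ⟨_, rfl⟩
  obtain ⟨M, hM⟩ : ∃ M, M = (Mon 3 s).card := ⟨_, rfl⟩
  have hMv : M = (s + 2).choose 2 := by rw [hM, card_Mon3]
  have hM2 : 2 * M = (s + 1) * (s + 2) := by
    rw [hMv, Nat.choose_two_right]
    have h2 : 2 ∣ (s + 2) * (s + 2 - 1) := (Nat.even_mul_pred_self (s + 2)).two_dvd
    rw [Nat.mul_div_cancel' h2, show s + 2 - 1 = s + 1 by omega]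
    ring
  have hz0 : Finsupp.single (2 : Fin 3) s ∈ Mon 3 s := mem_Mon.2 (by simp)
  have hcard : ((Mon 3 s).erase (Finsupp.single 2 s)).card = M - 1 := by
    rw [Finset.card_erase_of_mem hz0, hM]
  have hMpos : 2 ≤ M := by nlinarith
  obtain ⟨Es, hE1, hE2⟩ := Finset.exists_subset_card_eq
    (s := (Mon 3 s).erase (Finsupp.single 2 s)) (n := M / 2) (by rw [hcard]; omega)
  have hEs : Es ⊆ Mon 3 s := hE1.trans (Finset.erase_subset _ _)
  have hz : Finsupp.single (2 : Fin 3) s ∉ Es := fun h => by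
    have := hE1 h
    simp at this
  have hs1 : 1 ≤ s := by omega
  refine ⟨_, mb k (famData Es hEs).e, famCl Es hEs 2 hz hs1 k,
    famCl_irreducible Es hEs 2 hz hs1 k, famCl_meets Es hEs 2 hz hs1 k, ?_⟩
  refine lt_of_lt_of_le ?_ (famCl_dim Es hEs 2 hz hs1 k)
  have hN : (Mon 3 s \ Es).card = M - M / 2 := by
    rw [Finset.card_sdiff_of_subset hEs, ← hM, hE2]
  -- the number of basis monomials
  have hd : (basSet s Es).card ≤ (s + 1) * M := by
    unfold basSet
    refine (Finset.card_union_le _ _).trans ?_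
    have h1 : ((Finset.range s).biUnion fun i => Mon 3 i).card ≤ s * M := by
      refine (Finset.card_biUnion_le).trans ?_
      have h2 : ∀ i ∈ Finset.range s, (Mon 3 i).card ≤ M := by
        intro i hi
        rw [card_Mon3, hMv]
        exact Nat.choose_le_choose 2 (by have := Finset.mem_range.1 hi; omega)
      refine (Finset.sum_le_sum h2).trans ?_
      simp
    rw [hE2]
    have : M / 2 ≤ M := Nat.div_le_self _ _
    nlinarith
  rw [hN, hE2]
  have key : K * (basSet s Es).card < (M - M / 2) * (M / 2) := by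
    obtain ⟨h, hh⟩ : ∃ h, h = M / 2 := ⟨_, rfl⟩
    have h1 : h ≤ M - M / 2 := by omega
    have h2 : M ≤ 2 * h + 1 := by omega
    rw [← hh] at h1 ⊢
    have h3 : K * (basSet s Es).card ≤ K * ((s + 1) * (2 * h + 1)) :=
      Nat.mul_le_mul_left _ (hd.trans (Nat.mul_le_mul_left _ h2))
    have h4 : 2 * K * (s + 1) + 2 ≤ h := by
      have h5 : 4 * h + 2 ≥ (s + 1) * (s + 2) := by omega
      subst hs
      nlinarith
    have h6 : K * ((s + 1) * (2 * h + 1)) < h * h := by
      obtain ⟨t, ht⟩ := Nat.exists_eq_add_of_le h4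
      subst ht
      nlinarith [Nat.zero_le (K * (s + 1)), Nat.zero_le t, Nat.zero_le (K * (s + 1) * t)]
    exact lt_of_le_of_lt h3 (lt_of_lt_of_le h6 (Nat.mul_le_mul_right _ h1))
  exact_mod_cast key

end Pool.Agent.TH169.EC
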