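import Mathlib
import Pool.Agent.TH169.EC.Union
import Pool.Agent.TH169.EC.Decomp
import Pool.Agent.TH169.EC.Fam
import Pool.Agent.Helper413.Gal.Uniq

set_option autoImplicit false

/-!
There are infinitely many elementary components of the Hilbert schemes of points of affine
3-space.
-/

open scoped TensorProduct
open CategoryTheory AlgebraicGeometry

universe u

namespace Pool.Agent.TH169.EC

open Module Pool.Agent.Helper226

/-- A subset `C` of the Hilbert scheme is elementary if for all `k`-points in a nonempty open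
subset of `C` the corresponding subscheme of `Spec B` is irreducible, that is the radical of its
ideal is prime. -/
def IsElementary {k : Type u} [Field k] {B : Type u} [CommRing B] [Algebra k B] {d : ℕ}
    (𝓗 : HilbertScheme k B d) (C : Set 𝓗.H) : Prop :=
  ∃ U : Set 𝓗.H, IsOpen U ∧ (C ∩ U).Nonempty ∧
    ∀ f : PointsOver k 𝓗.H 𝓗.s k, Set.range f.1 ⊆ C ∩ U → (𝓗.idealOf f).radical.IsPrime

section kpt

variable {k : Type u} [Field k] {B : Type u} [CommRing B] [Algebra k B] {d : ℕ}

lemma clf_uc (b : Fin d → B) : clf (uc k b) = AlgHom.id k (AR k b) := by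
  apply hom_ext_uc
  rw [uc_map_clf, Chart.map_id]

/-- a nonempty open subset of the Hilbert scheme contains a `k`-point -/
lemma exists_kpoint [IsAlgClosed k] [Algebra.FiniteType k B] (U : Set (HilbS k B d))
    (hU : IsOpen U) (hne : U.Nonempty) :
    ∃ (b : Fin d → B) (c : Chart k b k), chartι k (Idx.single b) (zp c) ∈ U := by
  obtain ⟨x, hx⟩ := hne
  obtain ⟨L, y, rfl⟩ := chartι_surj k x
  obtain ⟨b, hb⟩ := L.ne
  have hle : L ≤ Idx.single b := by
    change ({b} : Finset (Fin d → B)) ⊆ L.s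
    rw [Finset.singleton_subset_iff]
    exact hb
  have h1 := map_chartι k hle
  let y' := Spec.map (CommRingCat.ofHom
    ((univ k (Idx.single b)).hom (univ k L).I (hasBas_of_le k hle)).toRingHom) y
  have hy' : chartι k (Idx.single b) y' = chartι k L y := by
    rw [← h1]; rfl
  have hft : Algebra.FiniteType k (AR k b) := univ_finiteType (k := k) (Idx.single b)
  have hJ : JacobsonSpace (PrimeSpectrum (AR k b)) :=
    PrimeSpectrum.isJacobsonRing_iff_jacobsonSpace.1 (isJacobsonRing_of_finiteType (A := k))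
  have hV : IsOpen ((chartι k (Idx.single b)) ⁻¹' U) :=
    hU.preimage (chartι k (Idx.single b)).continuous
  obtain ⟨M, hMV, hMc⟩ := @nonempty_inter_closedPoints (PrimeSpectrum (AR k b)) _ hJ
    ((chartι k (Idx.single b)) ⁻¹' U) ⟨y', (hy'.symm ▸ hx : chartι k (Idx.single b) y' ∈ U)⟩
    hV.isLocallyClosed
  have hM : M.asIdeal.IsMaximal := (PrimeSpectrum.isClosed_singleton_iff_isMaximal M).1 hMc
  obtain ⟨g, hg⟩ := exists_hom_of_maximal (k := k) M.asIdeal hM
  refine ⟨b, (uc k b).map g, ?_⟩
  have h2 : M = zp ((uc k b).map g) := by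
    apply PrimeSpectrum.ext
    rw [← hg]
    change _ = RingHom.ker (clf ((uc k b).map g))
    rw [clf_map, clf_uc]
    rfl
  rw [← h2]
  exact hMV

/-- If no component of the Hilbert scheme of more than `R` points is elementary, then the ideals
with pieces of length at most `R` are dense. -/
theorem dense_small [IsAlgClosed k] [Algebra.FiniteType k B] (R : ℕ)
    (hR : ∀ r, R < r → ∀ C ∈ irreducibleComponents (hilb k B r).H, ¬ IsElementary (hilb k B r) C) :
    ∀ (r : ℕ) (U : Set (HilbS k B r)), IsOpen U → U.Nonempty →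
      ∃ I : Ideal B, Small k R I ∧ InU U I := by
  intro r
  induction r using Nat.strong_induction_on with
  | _ r ih =>
  intro U hU hne
  rcases Nat.lt_or_ge R r with hr | hr
  · obtain ⟨x, hx⟩ := hne
    have hC := hR r hr (irreducibleComponent (X := (hilb k B r).H) x)
      (irreducibleComponent_mem_irreducibleComponents _)
    have h1 : ∃ f : PointsOver k (hilb k B r).H (hilb k B r).s k,
        Set.range f.1 ⊆ irreducibleComponent (X := (hilb k B r).H) x ∩ U ∧
          ¬ ((hilb k B r).idealOf f).radical.IsPrime := by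
      by_contra hcon
      push Not at hcon
      exact hC ⟨U, hU, ⟨x, mem_irreducibleComponent, hx⟩, hcon⟩
    obtain ⟨f, hf, hprime⟩ := h1
    obtain ⟨b, c, hc1, hc2⟩ := exists_chart_of_field f
    have hI : (hilb k B r).idealOf f = c.ker := by
      unfold HilbertScheme.idealOf Chart.ker
      rw [hc2]
    rw [hI] at hprime
    have hinU : InU U c.ker := by
      rw [inU_iff]
      have h2 : chartι k (Idx.single b) (zp c) ∈ Set.range f.1 := by
        rw [hc1]
        exact (mem_range_mor_iff c _).2 rfl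
      exact (hf h2).2
    obtain ⟨hfin, hrk⟩ := finrank_ker c
    have hne_top : c.ker ≠ ⊤ := by
      intro htop
      have hsub : Subsingleton (B ⧸ c.ker) := Ideal.Quotient.subsingleton_iff.2 htop
      have := Module.finrank_zero_of_subsingleton (R := k) (M := B ⧸ c.ker)
      omega
    obtain ⟨I1, I2, hco, hinf, ht1, ht2⟩ := exists_coprime (k := k) c.ker hne_top hprime
    have hle1 : c.ker ≤ I1 := hinf.le.trans inf_le_left
    have hle2 : c.ker ≤ I2 := hinf.le.trans inf_le_right
    have hfin1 : Module.Finite k (B ⧸ I1) :=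
      Module.Finite.of_surjective (Ideal.Quotient.factorₐ k hle1).toLinearMap
        (Ideal.Quotient.factor_surjective hle1)
    have hfin2 : Module.Finite k (B ⧸ I2) :=
      Module.Finite.of_surjective (Ideal.Quotient.factorₐ k hle2).toLinearMap
        (Ideal.Quotient.factor_surjective hle2)
    have hsum : r = finrank k (B ⧸ I1) + finrank k (B ⧸ I2) := by
      rw [← hrk]
      have h3 := (inf_colength (k := k) I1 I2 hco).2
      rw [← h3]
      congr 2
    have hnt1 : Nontrivial (B ⧸ I1) := Ideal.Quotient.nontrivial_iff.2 ht1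
    have hnt2 : Nontrivial (B ⧸ I2) := Ideal.Quotient.nontrivial_iff.2 ht2
    have hp1 : 0 < finrank k (B ⧸ I1) := finrank_pos
    have hp2 : 0 < finrank k (B ⧸ I2) := finrank_pos
    obtain ⟨b1, c1, hc1'⟩ := exists_chart_of_finrank (k := k) I1 rfl
    obtain ⟨b2, c2, hc2'⟩ := exists_chart_of_finrank (k := k) I2 rfl
    obtain ⟨U1, hU1, hm1, hall1⟩ := exists_open_union hsum c1 c2 (by rw [hc1', hc2']; exact hco) U hU
      (by rw [hc1', hc2', ← hinf]; exact hinU)
    obtain ⟨J1, hJ1, hJ1U⟩ := ih (finrank k (B ⧸ I1)) (by omega) U1 hU1 (by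
      rw [inU_iff] at hm1
      exact ⟨_, hm1⟩)
    obtain ⟨hcoJ, hinJ⟩ := hall1 J1 hJ1U
    obtain ⟨b1', c1', hker1, -⟩ := hJ1U
    subst hker1
    obtain ⟨U2, hU2, hm2, hall2⟩ := exists_open_union (hsum.trans (Nat.add_comm _ _)) c2 c1'
      hcoJ.symm U hU (by rw [inf_comm]; exact hinJ)
    obtain ⟨J2, hJ2, hJ2U⟩ := ih (finrank k (B ⧸ I2)) (by omega) U2 hU2 (by
      rw [inU_iff] at hm2
      exact ⟨_, hm2⟩)
    obtain ⟨hco2, hin2⟩ := hall2 J2 hJ2U
    exact ⟨J2 ⊓ c1'.ker, Small.inter _ _ hJ2 hJ1 hco2, hin2⟩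
  · obtain ⟨b, c, hc⟩ := exists_kpoint U hU hne
    obtain ⟨hfin, hrk⟩ := finrank_ker c
    exact ⟨c.ker, Small.base _ hfin (by rw [hrk]; exact hr), (inU_iff c).2 hc⟩

end kpt

section main

variable (k : Type u) [Field k] [IsAlgClosed k]

/-- For every bound `R` there is an elementary component of the Hilbert scheme of `r > R` points
of affine 3-space. -/
theorem exists_elementary (R : ℕ) : ∃ r, R < r ∧
    ∃ C ∈ irreducibleComponents (hilb k (MvPolynomial (Fin 3) k) r).H,
      IsElementary (hilb k (MvPolynomial (Fin 3) k) r) C := by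
  by_contra hcon
  push Not at hcon
  have hd := dense_small (k := k) (B := MvPolynomial (Fin 3) k) R hcon
  obtain ⟨d, b, C, hC, hne, hdim⟩ := exists_large k (3 * R + 1)
  have hsub : C ⊆ closure ((hilb k (MvPolynomial (Fin 3) k) d).locus (Small k R)) := by
    intro x _
    refine mem_closure_iff.2 ?_
    intro U hU hxU
    obtain ⟨I, hI, b', c', rfl, hc'⟩ := hd d U hU ⟨x, hxU⟩
    exact ⟨_, hc', chartι_zp_mem_locus c' _ hI⟩
  have h1 := topDim_le_of_subset_small b C hC hsub hne
  exact absurd (lt_of_lt_of_le hdim h1) (lt_irrefl _)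

variable {k}

omit [IsAlgClosed k] in
/-- transport of elementary components -/
lemma isElementary_transport {B : Type u} [CommRing B] [Algebra k B] {d : ℕ}
    (𝓗₁ 𝓗₂ : HilbertScheme k B d) (C : Set 𝓗₁.H) (hC : C ∈ irreducibleComponents 𝓗₁.H)
    (h : IsElementary 𝓗₁ C) :
    ∃ C' ∈ irreducibleComponents 𝓗₂.H, IsElementary 𝓗₂ C' := by
  let e : 𝓗₂.H ≃ₜ 𝓗₁.H := Scheme.homeoOfIso (Helper413.Gal.tiso 𝓗₂ 𝓗₁)
  have he : ∀ x, e x = Helper413.Gal.tmor 𝓗₂ 𝓗₁ x := fun x => rfl
  obtain ⟨U, hU, hne, hall⟩ := h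
  refine ⟨e ⁻¹' C, ?_, e ⁻¹' U, hU.preimage e.continuous, ?_, ?_⟩
  · refine preimage_mem_irreducibleComponents hC e.isOpenEmbedding ?_
    rw [e.range_coe, Set.inter_univ]
    exact hC.1.nonempty
  · obtain ⟨x, hxC, hxU⟩ := hne
    refine ⟨e.symm x, ?_, ?_⟩
    · simpa using hxC
    · simpa using hxU
  · intro f hf
    have h1 := hall (Helper413.Gal.tr 𝓗₂ 𝓗₁ k f) (by
      rw [Helper413.Gal.tr_val]
      rintro _ ⟨y, rfl⟩
      have h2 := hf ⟨y, rfl⟩
      rw [Scheme.Hom.comp_apply, ← he]
      exact h2)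
    unfold HilbertScheme.idealOf at h1 ⊢
    rw [Helper413.Gal.Φ_tr] at h1
    exact h1

end main

end Pool.Agent.TH169.EC
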